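import Pool.Agent.Helper81.OG.TDefs

/-!
# OG-T07: global flow of a Lipschitz vector field

Proof.  For each `x` the Picard-Lindelöf theorem gives a solution on an interval of a length depending
only on `K`; lengths can be multiplied by `3 / 2` by gluing with the help of uniqueness, so there
are solutions on all intervals and on `ℝ`.  Continuity in `(t, x)`: Gronwall gives
`‖φ t x - φ t y‖ ≤ exp (K |t|) ‖x - y‖` and `φ · x` is continuous.  The group law is uniqueness.
-/

namespace OGR

open Metric Set Topology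

/-- Solutions of `γ' = F γ` exist on `(-T, T)` for all initial values. -/
private def SolT {V : Type*} [NormedAddCommGroup V] [NormedSpace ℝ V] (F : V → V) (T : ℝ) : Prop :=
  ∀ x, ∃ γ : ℝ → V, γ 0 = x ∧ ∀ t ∈ Ioo (-T) T, HasDerivAt γ (F (γ t)) t

private theorem solT_local {V : Type*} [NormedAddCommGroup V] [NormedSpace ℝ V] [CompleteSpace V]
    (F : V → V) (K : NNReal) (hF : LipschitzWith K F) : SolT F (1 / (2 * ((K : ℝ) + 1))) := by
  intro x
  set δ : ℝ := 1 / (2 * ((K : ℝ) + 1)) with hδ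
  have hK : (0 : ℝ) ≤ K := K.2
  have hδ0 : 0 < δ := by rw [hδ]; positivity
  have h0 : (0 : ℝ) ∈ Icc (-δ) δ := ⟨by linarith, hδ0.le⟩
  set a : NNReal := ⟨‖F x‖ + 1, by positivity⟩ with ha
  set L : NNReal := ⟨‖F x‖ + K * (‖F x‖ + 1), by positivity⟩ with hL
  have hpl : IsPicardLindelof (fun _ => F) (⟨0, h0⟩ : Icc (-δ) δ) x a 0 L K := by
    apply IsPicardLindelof.of_time_independent
    · intro y hy
      have h1 : ‖F y - F x‖ ≤ K * ‖y - x‖ := by
        simpa [dist_eq_norm] using hF.dist_le_mul y x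
      have h2 : ‖y - x‖ ≤ ‖F x‖ + 1 := by
        have := mem_closedBall.1 hy
        rwa [dist_eq_norm] at this
      have h3 : ‖F y‖ ≤ ‖F y - F x‖ + ‖F x‖ := norm_le_norm_sub_add _ _
      have h4 : (K : ℝ) * ‖y - x‖ ≤ K * (‖F x‖ + 1) := mul_le_mul_of_nonneg_left h2 hK
      change ‖F y‖ ≤ ‖F x‖ + K * (‖F x‖ + 1)
      linarith
    · exact hF.lipschitzOnWith
    · change (‖F x‖ + K * (‖F x‖ + 1)) * max (δ - 0) (0 - -δ) ≤ (‖F x‖ + 1) - 0
      have h1 : max (δ - 0) (0 - -δ) = δ := by simp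
      rw [h1, hδ, mul_one_div, div_le_iff₀ (by positivity)]
      nlinarith [norm_nonneg (F x), mul_nonneg hK (norm_nonneg (F x))]
  obtain ⟨α, hα0, hα⟩ := hpl.exists_eq_forall_mem_Icc_hasDerivWithinAt₀
  refine ⟨α, hα0, fun t ht => ?_⟩
  exact (hα t (Ioo_subset_Icc_self ht)).hasDerivAt (Icc_mem_nhds ht.1 ht.2)

private theorem solT_unique {V : Type*} [NormedAddCommGroup V] [NormedSpace ℝ V]
    {F : V → V} {K : NNReal} (hF : LipschitzWith K F) {a b t₀ : ℝ} (ht₀ : t₀ ∈ Ioo a b)
    {f g : ℝ → V} (hf : ∀ t ∈ Ioo a b, HasDerivAt f (F (f t)) t)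
    (hg : ∀ t ∈ Ioo a b, HasDerivAt g (F (g t)) t) (h : f t₀ = g t₀) : EqOn f g (Ioo a b) :=
  ODE_solution_unique_of_mem_Ioo (v := fun _ => F) (s := fun _ => univ) (K := K)
    (fun _ _ => hF.lipschitzOnWith) ht₀
    (fun t ht => ⟨hf t ht, mem_univ _⟩) (fun t ht => ⟨hg t ht, mem_univ _⟩) h

private theorem solT_extend {V : Type*} [NormedAddCommGroup V] [NormedSpace ℝ V]
    {F : V → V} {K : NNReal} (hF : LipschitzWith K F) {T : ℝ} (hT : 0 < T) (h : SolT F T) :
    SolT F (3 / 2 * T) := by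
  intro x
  obtain ⟨γ, hγ0, hγ⟩ := h x
  obtain ⟨β, hβ0, hβ⟩ := h (γ (T / 2))
  obtain ⟨β', hβ'0, hβ'⟩ := h (γ (-(T / 2)))
  have hb : ∀ t ∈ Ioo (-(T / 2)) (3 / 2 * T), HasDerivAt (fun t => β (t - T / 2)) (F (β (t - T / 2))) t := by
    intro t ht
    have := hβ (t - T / 2) ⟨by linarith [ht.1], by linarith [ht.2]⟩
    exact HasDerivAt.comp_sub_const t (T / 2) this
  have hb' : ∀ t ∈ Ioo (-(3 / 2 * T)) (T / 2), HasDerivAt (fun t => β' (t + T / 2)) (F (β' (t + T / 2))) t := by
    intro t ht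
    have := hβ' (t + T / 2) ⟨by linarith [ht.1], by linarith [ht.2]⟩
    exact HasDerivAt.comp_add_const t (T / 2) this
  -- agreement with `γ`
  have hγ' : ∀ t ∈ Ioo (-T) T, HasDerivAt γ (F (γ t)) t := hγ
  have e1 : EqOn (fun t => β (t - T / 2)) γ (Ioo (-(T / 2)) T) := by
    apply solT_unique hF (t₀ := T / 2) ⟨by linarith, by linarith⟩
    · intro t ht
      exact hb t ⟨ht.1, by linarith [ht.2]⟩
    · intro t ht
      exact hγ' t ⟨by linarith [ht.1], ht.2⟩
    · simp [hβ0]
  have e2 : EqOn (fun t => β' (t + T / 2)) γ (Ioo (-T) (T / 2)) := by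
    apply solT_unique hF (t₀ := -(T / 2)) ⟨by linarith, by linarith⟩
    · intro t ht
      exact hb' t ⟨by linarith [ht.1], ht.2⟩
    · intro t ht
      exact hγ' t ⟨ht.1, by linarith [ht.2]⟩
    · simp [hβ'0]
  classical
  refine ⟨fun t => if 0 ≤ t then β (t - T / 2) else β' (t + T / 2), ?_, ?_⟩
  · have := e1 (x := 0) ⟨by linarith, hT⟩
    simpa [hγ0] using this
  · intro t ht
    rcases lt_trichotomy t 0 with h0 | h0 | h0
    · have hev : (fun t => if 0 ≤ t then β (t - T / 2) else β' (t + T / 2)) =ᶠ[𝓝 t]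
          (fun t => β' (t + T / 2)) := by
        filter_upwards [Iio_mem_nhds h0] with s hs
        rw [if_neg (not_le.2 hs)]
      have h2 := hb' t ⟨ht.1, by linarith⟩
      have h3 : (if 0 ≤ t then β (t - T / 2) else β' (t + T / 2)) = β' (t + T / 2) :=
        if_neg (not_le.2 h0)
      beta_reduce
      rw [h3]
      exact h2.congr_of_eventuallyEq hev
    · subst h0
      have hev : (fun t => if 0 ≤ t then β (t - T / 2) else β' (t + T / 2)) =ᶠ[𝓝 0] γ := by
        filter_upwards [Ioo_mem_nhds (show -(T / 2) < 0 by linarith) (show (0 : ℝ) < T / 2 by linarith)] with s hs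
        by_cases h : 0 ≤ s
        · rw [if_pos h]
          exact e1 ⟨hs.1, by linarith [hs.2]⟩
        · rw [if_neg h]
          exact e2 ⟨by linarith [hs.1], hs.2⟩
      have h2 := hγ' 0 ⟨by linarith, hT⟩
      have h3 := hev.self_of_nhds
      simp only at h3
      beta_reduce
      rw [h3]
      exact h2.congr_of_eventuallyEq hev
    · have hev : (fun t => if 0 ≤ t then β (t - T / 2) else β' (t + T / 2)) =ᶠ[𝓝 t]
          (fun t => β (t - T / 2)) := by
        filter_upwards [Ioi_mem_nhds h0] with s hs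
        rw [if_pos (le_of_lt hs)]
      have h2 := hb t ⟨by linarith, ht.2⟩
      have h3 : (if 0 ≤ t then β (t - T / 2) else β' (t + T / 2)) = β (t - T / 2) :=
        if_pos h0.le
      beta_reduce
      rw [h3]
      exact h2.congr_of_eventuallyEq hev

private theorem solT_all {V : Type*} [NormedAddCommGroup V] [NormedSpace ℝ V] [CompleteSpace V]
    {F : V → V} {K : NNReal} (hF : LipschitzWith K F) (T : ℝ) : SolT F T := by
  have hK : (0 : ℝ) ≤ K := K.2
  set δ : ℝ := 1 / (2 * ((K : ℝ) + 1)) with hδ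
  have hδ0 : 0 < δ := by rw [hδ]; positivity
  have hn : ∀ n : ℕ, SolT F ((3 / 2) ^ n * δ) := by
    intro n
    induction n with
    | zero =>
      rw [pow_zero, one_mul]
      exact solT_local F K hF
    | succ n ih =>
      have := solT_extend hF (by positivity) ih
      rw [pow_succ]
      convert this using 1
      ring
  obtain ⟨n, hn1⟩ := pow_unbounded_of_one_lt (T / δ) (show (1 : ℝ) < 3 / 2 by norm_num)
  rw [div_lt_iff₀ hδ0] at hn1
  intro x
  obtain ⟨γ, hγ0, hγ⟩ := hn n x
  exact ⟨γ, hγ0, fun t ht => hγ t ⟨by linarith [ht.1], by linarith [ht.2]⟩⟩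

theorem exists_global_flow {V : Type*} [NormedAddCommGroup V] [NormedSpace ℝ V] [CompleteSpace V]
    (F : V → V) (K : NNReal) (hF : LipschitzWith K F) :
    ∃ φ : ℝ → V → V, (∀ x, φ 0 x = x) ∧
      (∀ x t, HasDerivAt (fun s => φ s x) (F (φ t x)) t) ∧
      Continuous (fun p : ℝ × V => φ p.1 p.2) ∧ ∀ s t x, φ (s + t) x = φ s (φ t x) := by
  choose sol hsol0 hsol using fun T : ℝ => solT_all hF T
  set φ : ℝ → V → V := fun t x => sol (|t| + 1) x t with hφ
  have hφ0 : ∀ x, φ 0 x = x := fun x => by simp [hφ, hsol0]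
  have heq : ∀ x T t, |t| < T → φ t x = sol T x t := by
    intro x T t ht
    have hm : |t| < min (|t| + 1) T := lt_min (by linarith) ht
    have hm' := abs_lt.1 hm
    have h0 : 0 < min (|t| + 1) T := lt_of_le_of_lt (abs_nonneg t) hm
    exact solT_unique hF (a := -(min (|t| + 1) T)) (b := min (|t| + 1) T) (t₀ := 0)
      ⟨by linarith, h0⟩
      (fun s hs => hsol (|t| + 1) x s
        ⟨by linarith [hs.1, min_le_left (|t| + 1) T], by linarith [hs.2, min_le_left (|t| + 1) T]⟩)
      (fun s hs => hsol T x s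
        ⟨by linarith [hs.1, min_le_right (|t| + 1) T], by linarith [hs.2, min_le_right (|t| + 1) T]⟩)
      (by rw [hsol0, hsol0]) ⟨hm'.1, hm'.2⟩
  have hφd : ∀ x t, HasDerivAt (fun s => φ s x) (F (φ t x)) t := by
    intro x t
    have h1 : |t| < |t| + 1 := by linarith
    have h2 := hsol (|t| + 1) x t (abs_lt.1 h1)
    rw [heq x (|t| + 1) t h1]
    refine h2.congr_of_eventuallyEq ?_
    have h3 : Ioo (-(|t| + 1)) (|t| + 1) ∈ 𝓝 t := Ioo_mem_nhds (abs_lt.1 h1).1 (abs_lt.1 h1).2
    filter_upwards [h3] with s hs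
    exact heq x _ s (abs_lt.2 hs)
  -- Gronwall
  have hpos : ∀ (x y : V) (t : ℝ), 0 ≤ t → dist (φ t x) (φ t y) ≤ dist x y * Real.exp (K * t) := by
    intro x y t ht
    have := dist_le_of_trajectories_ODE (v := fun _ => F) (K := K) (f := fun s => φ s x)
      (g := fun s => φ s y) (a := 0) (b := t) (δ := dist x y) (fun _ => hF)
      (fun s _ => (hφd x s).continuousAt.continuousWithinAt)
      (fun s _ => (hφd x s).hasDerivWithinAt)
      (fun s _ => (hφd y s).continuousAt.continuousWithinAt)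
      (fun s _ => (hφd y s).hasDerivWithinAt) (by simp [hφ0]) t ⟨ht, le_rfl⟩
    simpa using this
  have hneg : ∀ (x y : V) (t : ℝ), 0 ≤ t →
      dist (φ (-t) x) (φ (-t) y) ≤ dist x y * Real.exp (K * t) := by
    intro x y t ht
    have hF' : LipschitzWith K (fun z => -F z) := by
      intro a b
      have := hF a b
      simpa [edist_neg_neg] using this
    have hd : ∀ (z : V) (s : ℝ), HasDerivAt (fun s => φ (-s) z) (-F (φ (-s) z)) s := by
      intro z s
      have := (hφd z (-s)).scomp s (hasDerivAt_neg s)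
      rw [neg_one_smul] at this
      exact this
    have := dist_le_of_trajectories_ODE (v := fun _ z => -F z) (K := K) (f := fun s => φ (-s) x)
      (g := fun s => φ (-s) y) (a := 0) (b := t) (δ := dist x y) (fun _ => hF')
      (fun s _ => (hd x s).continuousAt.continuousWithinAt)
      (fun s _ => (hd x s).hasDerivWithinAt)
      (fun s _ => (hd y s).continuousAt.continuousWithinAt)
      (fun s _ => (hd y s).hasDerivWithinAt) (by simp [hφ0]) t ⟨ht, le_rfl⟩
    simpa using this
  have hall : ∀ (x y : V) (t : ℝ), dist (φ t x) (φ t y) ≤ dist x y * Real.exp (K * |t|) := by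
    intro x y t
    rcases le_total 0 t with h | h
    · rw [abs_of_nonneg h]; exact hpos x y t h
    · rw [abs_of_nonpos h]
      have := hneg x y (-t) (by linarith)
      rwa [neg_neg] at this
  refine ⟨φ, hφ0, hφd, ?_, ?_⟩
  · rw [continuous_iff_continuousAt]
    rintro ⟨t₀, x₀⟩
    rw [ContinuousAt, tendsto_iff_dist_tendsto_zero]
    have hc : Continuous (fun s => φ s x₀) :=
      continuous_iff_continuousAt.2 fun s => (hφd x₀ s).continuousAt
    have hlim : Filter.Tendsto (fun p : ℝ × V => dist p.2 x₀ * Real.exp (K * |p.1|) +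
        dist (φ p.1 x₀) (φ t₀ x₀)) (𝓝 (t₀, x₀)) (𝓝 0) := by
      have h1 : Continuous (fun p : ℝ × V => dist p.2 x₀ * Real.exp (K * |p.1|) +
          dist (φ p.1 x₀) (φ t₀ x₀)) := by
        have h2 : Continuous (fun p : ℝ × V => φ p.1 x₀) := hc.comp continuous_fst
        fun_prop
      have h3 := h1.tendsto (t₀, x₀)
      simpa using h3
    refine squeeze_zero (fun _ => dist_nonneg) (fun p => ?_) hlim
    calc dist (φ p.1 p.2) (φ t₀ x₀) ≤ dist (φ p.1 p.2) (φ p.1 x₀) + dist (φ p.1 x₀) (φ t₀ x₀) :=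
          dist_triangle _ _ _
      _ ≤ _ := by gcongr; exact hall _ _ _
  · intro s t x
    have h := ODE_solution_unique_univ (v := fun _ => F) (s := fun _ => univ) (K := K)
      (f := fun s => φ (s + t) x) (g := fun s => φ s (φ t x)) (t₀ := 0)
      (fun _ => hF.lipschitzOnWith)
      (fun s => ⟨HasDerivAt.comp_add_const s t (hφd x (s + t)), mem_univ _⟩)
      (fun s => ⟨hφd (φ t x) s, mem_univ _⟩) (by simp [hφ0])
    exact congrFun h s

end OGR
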