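import Mathlib

/-!
# Topological vocabulary for the regularity of the cells of the nonnegative orthogonal
Grassmannian (problem MP_1b9361_gt), block T.

* `E d`, `Bl d`, `Sp d`: Euclidean space, closed unit ball, unit sphere (of dimension `d - 1`).
* `BallSet K B d`: the pair of sets `(K, B)` is homeomorphic to the pair (ball, sphere).
* `Hs d`: the closed half space of dimension `d + 1`; `LH A B d x`: near `x` the pair of sets
  `(A, B)` is homeomorphic to an open piece of the pair (half space, boundary hyperplane).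
* `Collared A B`: `B` has an open collar in `A`.
* `OC s`: the geometric realization of the order complex of the finite poset `s`, realized as a
  set of functions.  `NA s A`: the points whose weight on `A` is at least `1/2`.
* `Good s A`: a combinatorial condition under which `NA s A` is a ball.
-/

namespace OGR

open Metric Set Topology

/-- Euclidean space of dimension `d`. -/
abbrev E (d : ℕ) := EuclideanSpace ℝ (Fin d)

/-- The closed unit ball of dimension `d`. -/
abbrev Bl (d : ℕ) : Set (E d) := Metric.closedBall (0 : E d) 1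

/-- The unit sphere of `E d`; it has dimension `d - 1`, and it is empty for `d = 0`. -/
abbrev Sp (d : ℕ) : Set (E d) := Metric.sphere (0 : E d) 1

/-- The pair of sets `(K, B)` is homeomorphic to the pair (closed ball, sphere) of dimension `d`. -/
def BallSet {X : Type*} [TopologicalSpace X] (K B : Set X) (d : ℕ) : Prop :=
  B ⊆ K ∧ ∃ h : K ≃ₜ Bl d, ∀ x : K, (x : X) ∈ B ↔ ‖(h x : E d)‖ = 1

/-- The closed half space of dimension `d + 1`. -/
def Hs (d : ℕ) : Set (E d × ℝ) := {p | 0 ≤ p.2}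

/-- Near `x` the pair `(A, B)` looks like the pair (half space of dimension `d + 1`, its boundary).
The map `e` is an open embedding of the relative neighbourhood `A ∩ U` of `x` in `A`. -/
def LH {X : Type*} [TopologicalSpace X] (A B : Set X) (d : ℕ) (x : X) : Prop :=
  ∃ (U : Set X) (e : ↥(A ∩ U) → ↥(Hs d)), IsOpen U ∧ x ∈ U ∧ IsOpenEmbedding e ∧
    ∀ y : ↥(A ∩ U), (y : X) ∈ B ↔ ((e y : E d × ℝ)).2 = 0

/-- `B` is collared in `A`: an open embedding `c` of `B × [0, 1)` in `A` with `c (b, 0) = b`. -/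
def Collared {X : Type*} [TopologicalSpace X] (A B : Set X) : Prop :=
  ∃ c : ↥B × ↥(Ico (0 : ℝ) 1) → ↥A, IsOpenEmbedding c ∧
    ∀ b : ↥B, ((c (b, ⟨0, by norm_num⟩) : ↥A) : X) = b

/-- `K` is cellular (of dimension `d`) in `X`: it has arbitrarily small neighbourhoods which are
closed balls with a nice neighbourhood. -/
def Cellular {X : Type*} [TopologicalSpace X] (d : ℕ) (K : Set X) : Prop :=
  ∀ U : Set X, IsOpen U → K ⊆ U → ∃ e : E d → X, IsOpenEmbedding e ∧
    K ⊆ e '' (Metric.ball 0 1) ∧ e '' (Metric.closedBall 0 1) ⊆ U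

section Poset

variable {P : Type*} [Fintype P] [DecidableEq P] [PartialOrder P] [DecidableLE P]

/-- The geometric realization of the order complex of `s`. -/
def OC (s : Finset P) : Set (P → ℝ) :=
  {x | (∀ p, 0 ≤ x p) ∧ (∀ p, p ∉ s → x p = 0) ∧ ∑ p, x p = 1 ∧
    ∀ p q, x p ≠ 0 → x q ≠ 0 → p ≤ q ∨ q ≤ p}

/-- The elements of `s` which are comparable with `w` and different from `w`. -/
def lk (s : Finset P) (w : P) : Finset P := s.filter (fun v => v ≠ w ∧ (v ≤ w ∨ w ≤ v))

/-- The points of `|s|` with weight at least `1/2` on `A`. -/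
def NA (s A : Finset P) : Set (P → ℝ) := {x | x ∈ OC s ∧ 1 / 2 ≤ ∑ p ∈ A, x p}

/-- The points of `|s|` with weight exactly `1/2` on `A`. -/
def bdA (s A : Finset P) : Set (P → ℝ) := {x | x ∈ OC s ∧ ∑ p ∈ A, x p = 1 / 2}

/-- Subsets of posets which can be built by adding points with good links. -/
inductive Good : Finset P → Finset P → Prop
  | base (s : Finset P) (v : P) (hv : v ∈ s) : Good s {v}
  | step (s A : Finset P) (w : P) (hw : w ∈ s) (hwA : w ∉ A) (h1 : Good s A)
      (h2 : Good (lk s w) (A ∩ lk s w)) : Good s (insert w A)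

/-- `|s|` is a sphere of dimension `d - 1`, and the same for all iterated links. -/
def HSph : ℕ → Finset P → Prop
  | 0, s => s = ∅
  | d + 1, s => Nonempty (↥(OC s) ≃ₜ ↥(Sp (d + 1))) ∧ ∀ w ∈ s, HSph d (lk s w)

end Poset

/-- `x` and `y` lie on an integral curve of `F` inside `{0 < ρ < r₁}`, `x` first. -/
def Joined {V : Type*} [NormedAddCommGroup V] [NormedSpace ℝ V] (F : V → V) (ρ : V → ℝ) (r₁ : ℝ)
    (x y : V) : Prop :=
  ∃ (γ : ℝ → V) (a b : ℝ), a ≤ b ∧ γ a = x ∧ γ b = y ∧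
    ∀ t ∈ Icc a b, HasDerivAt γ (F (γ t)) t ∧ 0 < ρ (γ t) ∧ ρ (γ t) < r₁

/-- The gauge `ρ` grows exponentially along the integral curves of `F` in `{0 < ρ < r₁}`. -/
def Grows {V : Type*} [NormedAddCommGroup V] [NormedSpace ℝ V] (F : V → V) (ρ : V → ℝ) (r₁ c : ℝ) :
    Prop :=
  ∀ (γ : ℝ → V) (a b : ℝ), a ≤ b →
    (∀ t ∈ Icc a b, HasDerivAt γ (F (γ t)) t ∧ 0 < ρ (γ t) ∧ ρ (γ t) < r₁) →
      Real.exp (c * (b - a)) * ρ (γ a) ≤ ρ (γ b)

/-- A family of lines leaving the origin, parametrized by the gauge `ρ`: `Λ s z` is the point of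
the line through `z` at which the gauge is `s`. -/
structure Lines {V : Type*} [NormedAddCommGroup V] [NormedSpace ℝ V] (F : V → V) (ρ : V → ℝ)
    (r₁ : ℝ) (Λ : ℝ → V → V) : Prop where
  cont : ContinuousOn (fun p : ℝ × V => Λ p.1 p.2)
    {p | 0 < p.1 ∧ p.1 < r₁ ∧ 0 < ρ p.2 ∧ ρ p.2 < r₁}
  gauge : ∀ s z, 0 < s → s < r₁ → 0 < ρ z → ρ z < r₁ → ρ (Λ s z) = s
  self : ∀ z, 0 < ρ z → ρ z < r₁ → Λ (ρ z) z = z
  comp : ∀ s t z, 0 < s → s < r₁ → 0 < t → t < r₁ → 0 < ρ z → ρ z < r₁ → Λ s (Λ t z) = Λ s z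
  down : ∀ s z, 0 < s → s ≤ ρ z → ρ z < r₁ → Joined F ρ r₁ (Λ s z) z
  up : ∀ s z, 0 < ρ z → ρ z ≤ s → s < r₁ → Joined F ρ r₁ z (Λ s z)
  joined : ∀ s x y, 0 < s → s < r₁ → Joined F ρ r₁ x y → Λ s x = Λ s y

end OGR
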